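import Pool.Agent.N290.RK.Stm

/-!
# RK/R3a : the Lipschitz estimates for `λ` and `p`
-/

set_option autoImplicit false

open Complex MeasureTheory Set Filter Topology

namespace Pool.Agent.N427.RK

open Pool.Agent.N290.RK

/-- the half sum of two reals bounded by `M` -/
theorem half_le (M A B : ℝ) (hA : |A| ≤ M) (hB : |B| ≤ M) : ‖((A : ℂ) - I * (B : ℂ)) / 2‖ ≤ M := by
  have h1 : ‖((A : ℂ) - I * (B : ℂ))‖ ≤ |A| + |B| := by
    refine (norm_sub_le _ _).trans ?_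
    rw [norm_mul, Complex.norm_I, one_mul, Complex.norm_real, Complex.norm_real,
      Real.norm_eq_abs, Real.norm_eq_abs]
  rw [norm_div]
  have h2 : ‖(2 : ℂ)‖ = 2 := by simp
  rw [h2]
  linarith

theorem dw_cd (φ : ℂ → ℝ) (h : ContDiff ℝ 2 φ) : ContDiff ℝ 1 (dw φ) := by
  have h1 : ContDiff ℝ 1 (fderiv ℝ φ) := h.fderiv_right (by norm_num)
  have h2 : ContDiff ℝ 1 (fun w => fderiv ℝ φ w 1) := h1.clm_apply contDiff_const
  have h3 : ContDiff ℝ 1 (fun w => fderiv ℝ φ w I) := h1.clm_apply contDiff_const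
  have h4 : ContDiff ℝ 1 (fun w => ((fderiv ℝ φ w 1 : ℝ) : ℂ)) :=
    Complex.ofRealCLM.contDiff.comp h2
  have h5 : ContDiff ℝ 1 (fun w => ((fderiv ℝ φ w I : ℝ) : ℂ)) :=
    Complex.ofRealCLM.contDiff.comp h3
  unfold dw
  exact (h4.sub (contDiff_const.mul h5)).div_const 2

theorem dw_le (φ : ℂ → ℝ) (L : ℝ) (hL : ∀ w, ‖fderiv ℝ φ w‖ ≤ L) (w : ℂ) : ‖dw φ w‖ ≤ L := by
  unfold dw
  apply half_le
  · have := (fderiv ℝ φ w).le_opNorm 1
    rw [norm_one, mul_one, Real.norm_eq_abs] at this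
    exact this.trans (hL w)
  · have := (fderiv ℝ φ w).le_opNorm I
    rw [Complex.norm_I, mul_one, Real.norm_eq_abs] at this
    exact this.trans (hL w)

theorem phi_lip (φ : ℂ → ℝ) (L : ℝ) (h : ContDiff ℝ 2 φ) (hL : ∀ w, ‖fderiv ℝ φ w‖ ≤ L) (w w' : ℂ) :
    |φ w' - φ w| ≤ L * ‖w' - w‖ := by
  have h1 : Differentiable ℝ φ := h.differentiable (by norm_num)
  have := Convex.norm_image_sub_le_of_norm_fderiv_le (𝕜 := ℝ) (f := φ) (C := L) (s := univ)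
    (x := w) (y := w') (fun x _ => h1 x) (fun x _ => hL x) convex_univ (mem_univ _) (mem_univ _)
  rwa [Real.norm_eq_abs] at this

theorem dw_lip (φ : ℂ → ℝ) (L : ℝ) (h : ContDiff ℝ 2 φ)
    (hL : ∀ w, ‖fderiv ℝ (fderiv ℝ φ) w‖ ≤ L) (w w' : ℂ) :
    ‖dw φ w' - dw φ w‖ ≤ L * ‖w' - w‖ := by
  have h1 : Differentiable ℝ (fderiv ℝ φ) :=
    (h.fderiv_right (m := 1) (by norm_num)).differentiable (by norm_num)
  have h2 := Convex.norm_image_sub_le_of_norm_fderiv_le (𝕜 := ℝ) (f := fderiv ℝ φ) (C := L)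
    (s := univ) (x := w) (y := w') (fun x _ => h1 x) (fun x _ => hL x) convex_univ
    (mem_univ _) (mem_univ _)
  have e : dw φ w' - dw φ w = (((fderiv ℝ φ w' 1 - fderiv ℝ φ w 1 : ℝ) : ℂ) -
      I * ((fderiv ℝ φ w' I - fderiv ℝ φ w I : ℝ) : ℂ)) / 2 := by
    unfold dw
    push_cast
    ring
  rw [e]
  apply half_le
  · have := (fderiv ℝ φ w' - fderiv ℝ φ w).le_opNorm 1
    rw [norm_one, mul_one, Real.norm_eq_abs, _root_.sub_apply] at this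
    exact this.trans h2
  · have := (fderiv ℝ φ w' - fderiv ℝ φ w).le_opNorm I
    rw [Complex.norm_I, mul_one, Real.norm_eq_abs, _root_.sub_apply] at this
    exact this.trans h2

theorem lam_pos (φ : ℂ → ℝ) (w : ℂ) (a : ℝ) (ha : 0 < a) : 0 < lam φ w a := by
  unfold lam
  positivity

theorem le_m (φ : ℂ → ℝ) (w : ℂ) (a : ℝ) (h0 : 0 ≤ φ w) : φ w ≤ Real.sqrt (lam φ w a) := by
  apply Real.le_sqrt_of_sq_le
  unfold lam
  nlinarith [sq_nonneg a]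

theorem a_le_m (φ : ℂ → ℝ) (w : ℂ) (a : ℝ) : a ≤ Real.sqrt (lam φ w a) := by
  apply Real.le_sqrt_of_sq_le
  unfold lam
  nlinarith [sq_nonneg (φ w)]

theorem part3 (φ : ℂ → ℝ) (L : ℝ) (h : ContDiff ℝ 2 φ) (hL0 : 0 < L) (h01 : ∀ w, 0 ≤ φ w ∧ φ w ≤ 1)
    (hL : ∀ w, ‖fderiv ℝ φ w‖ ≤ L) (w w' : ℂ) (a a' : ℝ) (ha' : 0 < a') (haa : a' ≤ a) :
    lam φ w' a' ≤ lam φ w a * (1 + L * ‖w' - w‖ / a) ^ 2 := by
  have ha : 0 < a := lt_of_lt_of_le ha' haa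
  set δ := ‖w' - w‖ with hδ
  have hδ0 : 0 ≤ δ := norm_nonneg _
  set m := Real.sqrt (lam φ w a) with hm
  have hlam : lam φ w a = m ^ 2 := by
    rw [hm, Real.sq_sqrt (lam_pos φ w a ha).le]
  have h1 := abs_le.mp (phi_lip φ L h hL w w')
  have h2 : φ w' ≤ φ w + L * δ := by linarith [h1.2]
  have h3 : φ w ≤ m := le_m φ w a (h01 w).1
  have h4 : a ≤ m := a_le_m φ w a
  have hm0 : 0 < m := lt_of_lt_of_le ha h4
  have h5 : lam φ w' a' ≤ (m + L * δ) ^ 2 := by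
    have e1 : φ w' ^ 2 ≤ (φ w + L * δ) ^ 2 := by
      apply pow_le_pow_left₀ (h01 w').1 h2
    have e2 : a' ^ 2 ≤ a ^ 2 := pow_le_pow_left₀ ha'.le haa 2
    have e3 : φ w ^ 2 + a ^ 2 = m ^ 2 := by rw [← hlam]; rfl
    have e4 : 0 ≤ L * δ := by positivity
    unfold lam
    nlinarith [mul_nonneg e4 (sub_nonneg.mpr h3)]
  have h6 : m + L * δ ≤ m * (1 + L * δ / a) := by
    have : L * δ ≤ m * (L * δ / a) := by
      rw [← mul_div_assoc, le_div_iff₀ ha]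
      have : 0 ≤ L * δ := by positivity
      nlinarith
    linarith
  calc lam φ w' a' ≤ (m + L * δ) ^ 2 := h5
    _ ≤ (m * (1 + L * δ / a)) ^ 2 := by
      apply pow_le_pow_left₀ (by positivity) h6
    _ = lam φ w a * (1 + L * δ / a) ^ 2 := by rw [hlam]; ring

/-- `n = 2 φ ∂φ` -/
noncomputable def nn (φ : ℂ → ℝ) (w : ℂ) : ℂ := 2 * (φ w : ℂ) * dw φ w

theorem nn_le (φ : ℂ → ℝ) (L : ℝ) (h01 : ∀ w, 0 ≤ φ w ∧ φ w ≤ 1)
    (hL : ∀ w, ‖fderiv ℝ φ w‖ ≤ L) (w : ℂ) : ‖nn φ w‖ ≤ 2 * φ w * L := by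
  unfold nn
  rw [norm_mul, norm_mul, Complex.norm_real, Real.norm_eq_abs, abs_of_nonneg (h01 w).1]
  have h2 : ‖(2 : ℂ)‖ = 2 := by simp
  rw [h2]
  exact mul_le_mul_of_nonneg_left (dw_le φ L hL w) (by have := (h01 w).1; positivity)

theorem pp_eq (φ : ℂ → ℝ) (w : ℂ) (a : ℝ) : pp φ w a = nn φ w / (lam φ w a : ℂ) := rfl

theorem pp_norm (φ : ℂ → ℝ) (w : ℂ) (a : ℝ) (ha : 0 < a) :
    ‖pp φ w a‖ = ‖nn φ w‖ / lam φ w a := by
  rw [pp_eq, norm_div, Complex.norm_real, Real.norm_eq_abs, abs_of_pos (lam_pos φ w a ha)]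

theorem part4 (φ : ℂ → ℝ) (L : ℝ) (hL0 : 0 < L) (h01 : ∀ w, 0 ≤ φ w ∧ φ w ≤ 1)
    (hL : ∀ w, ‖fderiv ℝ φ w‖ ≤ L) (w : ℂ) (a : ℝ) (ha : 0 < a) :
    ‖pp φ w a‖ * φ w ≤ 2 * L ∧ ‖pp φ w a‖ * Real.sqrt (lam φ w a) ≤ 2 * L ∧
      ‖2 * (φ w : ℂ) * dw φ w‖ ≤ 2 * L * Real.sqrt (lam φ w a) := by
  set m := Real.sqrt (lam φ w a) with hm
  have hlam : lam φ w a = m ^ 2 := by
    rw [hm, Real.sq_sqrt (lam_pos φ w a ha).le]
  have h3 : φ w ≤ m := le_m φ w a (h01 w).1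
  have h4 : a ≤ m := a_le_m φ w a
  have hm0 : 0 < m := lt_of_lt_of_le ha h4
  have hn : ‖nn φ w‖ ≤ 2 * L * m := by
    refine (nn_le φ L h01 hL w).trans ?_
    nlinarith
  have hp : ‖pp φ w a‖ * m ≤ 2 * L := by
    rw [pp_norm φ w a ha, hlam, div_mul_eq_mul_div, div_le_iff₀ (by positivity)]
    nlinarith
  refine ⟨le_trans ?_ hp, hp, hn⟩
  exact mul_le_mul_of_nonneg_left h3 (norm_nonneg _)

theorem nn_lip (φ : ℂ → ℝ) (L : ℝ) (h : ContDiff ℝ 2 φ) (hL0 : 0 < L)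
    (h01 : ∀ w, 0 ≤ φ w ∧ φ w ≤ 1) (hL : ∀ w, ‖fderiv ℝ φ w‖ ≤ L)
    (hL2 : ∀ w, ‖fderiv ℝ (fderiv ℝ φ) w‖ ≤ L) (w w' : ℂ) :
    ‖nn φ w' - nn φ w‖ ≤ 2 * (L ^ 2 + L) * ‖w' - w‖ := by
  have e : nn φ w' - nn φ w = 2 * (((φ w' - φ w : ℝ) : ℂ) * dw φ w') +
      2 * ((φ w : ℂ) * (dw φ w' - dw φ w)) := by
    unfold nn
    push_cast
    ring
  rw [e]
  have h2 : ‖(2 : ℂ)‖ = 2 := by simp
  refine (norm_add_le _ _).trans ?_
  rw [norm_mul, norm_mul, norm_mul, norm_mul, h2, Complex.norm_real, Complex.norm_real,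
    Real.norm_eq_abs, Real.norm_eq_abs, abs_of_nonneg (h01 w).1]
  have e1 : |φ w' - φ w| * ‖dw φ w'‖ ≤ (L * ‖w' - w‖) * L :=
    mul_le_mul (phi_lip φ L h hL w w') (dw_le φ L hL w') (norm_nonneg _) (by positivity)
  have e2 : φ w * ‖dw φ w' - dw φ w‖ ≤ 1 * (L * ‖w' - w‖) :=
    mul_le_mul (h01 w).2 (dw_lip φ L h hL2 w w') (norm_nonneg _) (by norm_num)
  nlinarith

theorem part5 (φ : ℂ → ℝ) (L : ℝ) (h : ContDiff ℝ 2 φ) (hL0 : 0 < L)
    (h01 : ∀ w, 0 ≤ φ w ∧ φ w ≤ 1) (hL : ∀ w, ‖fderiv ℝ φ w‖ ≤ L)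
    (hL2 : ∀ w, ‖fderiv ℝ (fderiv ℝ φ) w‖ ≤ L) (w w' : ℂ) (a a' : ℝ) (ha' : 0 < a')
    (haa : a' ≤ a) (hl2 : lam φ w' a' ≤ 2 * lam φ w a) :
    lam φ w' a' * ‖pp φ w' a' - pp φ w a‖ ≤ 20 * (1 + L) ^ 2 * (‖w' - w‖ + (a - a')) := by
  have ha : 0 < a := lt_of_lt_of_le ha' haa
  have hl : 0 < lam φ w a := lam_pos φ w a ha
  have hl' : 0 < lam φ w' a' := lam_pos φ w' a' ha'
  set m := Real.sqrt (lam φ w a) with hm
  set m' := Real.sqrt (lam φ w' a') with hm'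
  have hlam : lam φ w a = m ^ 2 := by rw [hm, Real.sq_sqrt hl.le]
  have hlam' : lam φ w' a' = m' ^ 2 := by rw [hm', Real.sq_sqrt hl'.le]
  have h3 : φ w ≤ m := le_m φ w a (h01 w).1
  have h4 : a ≤ m := a_le_m φ w a
  have h3' : φ w' ≤ m' := le_m φ w' a' (h01 w').1
  have h4' : a' ≤ m' := a_le_m φ w' a'
  have hm0 : 0 < m := lt_of_lt_of_le ha h4
  have hm0' : 0 < m' := lt_of_lt_of_le ha' h4'
  have hmm : m' ≤ 3 / 2 * m := by
    have : m' ^ 2 ≤ (3 / 2 * m) ^ 2 := by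
      rw [← hlam']
      rw [hlam] at hl2
      nlinarith
    exact le_of_sq_le_sq this (by positivity)
  set δ := ‖w' - w‖ with hδ
  have hδ0 : 0 ≤ δ := norm_nonneg _
  have hlc : (lam φ w a : ℂ) ≠ 0 := by exact_mod_cast hl.ne'
  have hlc' : (lam φ w' a' : ℂ) ≠ 0 := by exact_mod_cast hl'.ne'
  have e : (lam φ w' a' : ℂ) * (pp φ w' a' - pp φ w a) =
      (nn φ w' - nn φ w) + pp φ w a * ((lam φ w a - lam φ w' a' : ℝ) : ℂ) := by
    rw [pp_eq, pp_eq]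
    push_cast
    field_simp
    ring
  have e1 : lam φ w' a' * ‖pp φ w' a' - pp φ w a‖ =
      ‖(lam φ w' a' : ℂ) * (pp φ w' a' - pp φ w a)‖ := by
    rw [norm_mul, Complex.norm_real, Real.norm_eq_abs, abs_of_pos hl']
  rw [e1, e]
  have e2 : |lam φ w a - lam φ w' a'| ≤ (m + m') * (L * δ + (a - a')) := by
    have f1 : lam φ w a - lam φ w' a' = (φ w - φ w') * (φ w + φ w') + (a - a') * (a + a') := by
      unfold lam
      ring
    rw [f1]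
    have f2 : |φ w - φ w'| ≤ L * δ := by
      rw [abs_sub_comm]
      exact phi_lip φ L h hL w w'
    refine (abs_add_le _ _).trans ?_
    rw [abs_mul, abs_mul, abs_of_nonneg (by linarith [(h01 w).1, (h01 w').1] : 0 ≤ φ w + φ w'),
      abs_of_nonneg (by linarith : 0 ≤ a - a'), abs_of_nonneg (by linarith : 0 ≤ a + a')]
    have f3 : |φ w - φ w'| * (φ w + φ w') ≤ (L * δ) * (m + m') :=
      mul_le_mul f2 (by linarith) (by linarith [(h01 w).1, (h01 w').1]) (by positivity)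
    have f4 : (a - a') * (a + a') ≤ (a - a') * (m + m') :=
      mul_le_mul_of_nonneg_left (by linarith) (by linarith)
    nlinarith
  have e3 : ‖pp φ w a * ((lam φ w a - lam φ w' a' : ℝ) : ℂ)‖ ≤ 5 * L * (L * δ + (a - a')) := by
    rw [norm_mul, Complex.norm_real, Real.norm_eq_abs]
    have g1 := (part4 φ L hL0 h01 hL w a ha).2.1
    have g2 : 0 ≤ L * δ + (a - a') := by
      have : 0 ≤ L * δ := by positivity
      linarith
    calc ‖pp φ w a‖ * |lam φ w a - lam φ w' a'|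
        ≤ ‖pp φ w a‖ * ((m + m') * (L * δ + (a - a'))) :=
          mul_le_mul_of_nonneg_left e2 (norm_nonneg _)
      _ ≤ ‖pp φ w a‖ * ((5 / 2 * m) * (L * δ + (a - a'))) := by
          apply mul_le_mul_of_nonneg_left _ (norm_nonneg _)
          apply mul_le_mul_of_nonneg_right _ g2
          linarith
      _ = (‖pp φ w a‖ * m) * (5 / 2 * (L * δ + (a - a'))) := by ring
      _ ≤ (2 * L) * (5 / 2 * (L * δ + (a - a'))) :=
          mul_le_mul_of_nonneg_right g1 (by positivity)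
      _ = 5 * L * (L * δ + (a - a')) := by ring
  have e4 := nn_lip φ L h hL0 h01 hL hL2 w w'
  rw [← hδ] at e4
  refine (norm_add_le _ _).trans ?_
  have g3 : 0 ≤ a - a' := by linarith
  have g4 : 0 ≤ L * δ := by positivity
  have g5 : 0 ≤ L * (a - a') := by positivity
  have g6 : 0 ≤ L ^ 2 * δ := by positivity
  have g7 : 0 ≤ L ^ 2 * (a - a') := by positivity
  nlinarith

theorem part2 (φ : ℂ → ℝ) (h : ContDiff ℝ 2 φ) :
    ContDiffOn ℝ 1 (fun q : ℂ × ℝ => pp φ q.1 q.2) {q | 0 < q.2} := by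
  have h1 : ContDiff ℝ 1 (fun q : ℂ × ℝ => φ q.1) :=
    (h.of_le (by norm_num)).comp contDiff_fst
  have h2 : ContDiff ℝ 1 (fun q : ℂ × ℝ => dw φ q.1) := (dw_cd φ h).comp contDiff_fst
  have h3 : ContDiff ℝ 1 (fun q : ℂ × ℝ => ((φ q.1 : ℝ) : ℂ)) :=
    Complex.ofRealCLM.contDiff.comp h1
  have h4 : ContDiff ℝ 1 (fun q : ℂ × ℝ => lam φ q.1 q.2) := by
    unfold lam
    exact (h1.pow 2).add (contDiff_snd.pow 2)
  have h5 : ContDiff ℝ 1 (fun q : ℂ × ℝ => ((lam φ q.1 q.2 : ℝ) : ℂ)) :=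
    Complex.ofRealCLM.contDiff.comp h4
  have h6 : ContDiff ℝ 1 (fun q : ℂ × ℝ => 2 * (φ q.1 : ℂ) * dw φ q.1) :=
    (contDiff_const.mul h3).mul h2
  have h7 : ContDiffOn ℝ 1 (fun q : ℂ × ℝ => ((lam φ q.1 q.2 : ℝ) : ℂ)⁻¹) {q | 0 < q.2} := by
    apply h5.contDiffOn.inv
    intro q hq
    have := lam_pos φ q.1 q.2 hq
    exact_mod_cast this.ne'
  unfold pp
  simp only [div_eq_mul_inv]
  exact h6.contDiffOn.mul h7

theorem part6 (φ : ℂ → ℝ) (L : ℝ) (h : ContDiff ℝ 2 φ) (hL0 : 0 < L)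
    (h01 : ∀ w, 0 ≤ φ w ∧ φ w ≤ 1) (hL : ∀ w, ‖fderiv ℝ φ w‖ ≤ L)
    (hL2 : ∀ w, ‖fderiv ℝ (fderiv ℝ φ) w‖ ≤ L) (w : ℂ) (a : ℝ) (ha : 0 < a) (η : ℂ) (b : ℝ) :
    lam φ w a * ‖fderiv ℝ (fun q : ℂ × ℝ => pp φ q.1 q.2) (w, a) (η, b)‖ ≤
      20 * (1 + L) ^ 2 * (‖η‖ + |b|) := by
  have hl : 0 < lam φ w a := lam_pos φ w a ha
  have hop : IsOpen {q : ℂ × ℝ | 0 < q.2} := isOpen_lt continuous_const continuous_snd
  have hmem : ((w, a) : ℂ × ℝ) ∈ {q : ℂ × ℝ | 0 < q.2} := ha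
  have hP : DifferentiableAt ℝ (fun q : ℂ × ℝ => pp φ q.1 q.2) (w, a) :=
    ((part2 φ h).contDiffAt (hop.mem_nhds hmem)).differentiableAt (by norm_num)
  have hd1 : DifferentiableAt ℝ φ w := (h.differentiable (by norm_num)) w
  have hd2 : DifferentiableAt ℝ (dw φ) w := ((dw_cd φ h).differentiable (by norm_num)) w
  -- the curve
  have hc : HasDerivAt (fun t : ℝ => ((w, a) : ℂ × ℝ) + t • ((η, b) : ℂ × ℝ)) (η, b) 0 := by
    have := ((hasDerivAt_id (0 : ℝ)).smul_const ((η, b) : ℂ × ℝ)).const_add ((w, a) : ℂ × ℝ)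
    simpa using this
  have hP0 : HasFDerivAt (fun q : ℂ × ℝ => pp φ q.1 q.2)
      (fderiv ℝ (fun q : ℂ × ℝ => pp φ q.1 q.2) (w, a))
      (((w, a) : ℂ × ℝ) + (0 : ℝ) • ((η, b) : ℂ × ℝ)) := by
    simpa using hP.hasFDerivAt
  have hp := hP0.comp_hasDerivAt (0 : ℝ) hc
  set D := fderiv ℝ (fun q : ℂ × ℝ => pp φ q.1 q.2) (w, a) (η, b) with hD
  have hc1 : HasDerivAt (fun t : ℝ => w + t • η) η 0 := by
    have := ((hasDerivAt_id (0 : ℝ)).smul_const η).const_add w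
    simpa using this
  have hc2 : HasDerivAt (fun t : ℝ => a + t * b) b 0 := by
    have := ((hasDerivAt_id (0 : ℝ)).mul_const b).const_add a
    simpa using this
  have hphi0 : HasFDerivAt φ (fderiv ℝ φ w) (w + (0 : ℝ) • η) := by
    simpa using hd1.hasFDerivAt
  have hdw0 : HasFDerivAt (dw φ) (fderiv ℝ (dw φ) w) (w + (0 : ℝ) • η) := by
    simpa using hd2.hasFDerivAt
  have hphi := hphi0.comp_hasDerivAt (0 : ℝ) hc1
  have hdw := hdw0.comp_hasDerivAt (0 : ℝ) hc1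
  set u := fderiv ℝ φ w η with hu
  set v := fderiv ℝ (dw φ) w η with hv
  have hphic : HasDerivAt (fun t : ℝ => ((φ (w + t • η) : ℝ) : ℂ)) (u : ℂ) 0 :=
    hphi.ofReal_comp
  have hlamd : HasDerivAt (fun t : ℝ => lam φ (w + t • η) (a + t * b))
      (2 * φ w * u + 2 * a * b) 0 := by
    have := (hphi.pow 2).add (hc2.pow 2)
    refine HasDerivAt.congr_deriv (f := fun t : ℝ => lam φ (w + t • η) (a + t * b)) this ?_
    simp
  have hlamc : HasDerivAt (fun t : ℝ => ((lam φ (w + t • η) (a + t * b) : ℝ) : ℂ))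
      ((2 * φ w * u + 2 * a * b : ℝ) : ℂ) 0 := hlamd.ofReal_comp
  have hnn : HasDerivAt (fun t : ℝ => nn φ (w + t • η))
      (2 * (u : ℂ) * dw φ w + 2 * (φ w : ℂ) * v) 0 := by
    have := (hphic.const_mul (2 : ℂ)).mul hdw
    refine HasDerivAt.congr_deriv (f := fun t : ℝ => nn φ (w + t • η)) this ?_
    simp
  have hprod := hp.mul hlamc
  have hev : (fun t : ℝ => nn φ (w + t • η)) =ᶠ[𝓝 0]
      (fun t : ℝ => ((fun q : ℂ × ℝ => pp φ q.1 q.2) ∘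
        (fun t : ℝ => ((w, a) : ℂ × ℝ) + t • ((η, b) : ℂ × ℝ))) t *
        ((lam φ (w + t • η) (a + t * b) : ℝ) : ℂ)) := by
    have hcont : ContinuousAt (fun t : ℝ => a + t * b) 0 := hc2.continuousAt
    have hpos : ∀ᶠ t in 𝓝 (0 : ℝ), 0 < a + t * b := by
      apply hcont.eventually (lt_mem_nhds _)
      simpa using ha
    filter_upwards [hpos] with t ht
    have hlt : ((lam φ (w + t • η) (a + t * b) : ℝ) : ℂ) ≠ 0 := by
      have := lam_pos φ (w + t • η) (a + t * b) ht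
      exact_mod_cast this.ne'
    show nn φ (w + t • η) = pp φ (w + t • η) (a + t • b) * _
    rw [smul_eq_mul, pp_eq, div_mul_cancel₀ _ hlt]
  have huniq := (hnn.congr_of_eventuallyEq hev.symm).unique hprod
  simp only [zero_smul, add_zero, zero_mul, Function.comp_apply] at huniq
  -- huniq : 2 u dw + 2 φ v = D * lam + p * (…)
  have hkey : (lam φ w a : ℂ) * D = (2 * (u : ℂ) * dw φ w + 2 * (φ w : ℂ) * v) -
      pp φ w a * ((2 * φ w * u + 2 * a * b : ℝ) : ℂ) := by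
    rw [huniq]
    ring
  have e1 : lam φ w a * ‖D‖ = ‖(lam φ w a : ℂ) * D‖ := by
    rw [norm_mul, Complex.norm_real, Real.norm_eq_abs, abs_of_pos hl]
  rw [e1, hkey]
  have h2 : ‖(2 : ℂ)‖ = 2 := by simp
  have hu1 : |u| ≤ L * ‖η‖ := by
    have := (fderiv ℝ φ w).le_opNorm η
    rw [Real.norm_eq_abs] at this
    exact this.trans (mul_le_mul_of_nonneg_right (hL w) (norm_nonneg _))
  have hv1 : ‖v‖ ≤ L * ‖η‖ := by
    have hlip : LipschitzWith ⟨L, hL0.le⟩ (dw φ) := by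
      apply LipschitzWith.of_dist_le_mul
      intro x y
      rw [dist_eq_norm, dist_eq_norm]
      exact dw_lip φ L h hL2 y x
    have h3 := norm_fderiv_le_of_lipschitz ℝ hlip (x₀ := w)
    exact ((fderiv ℝ (dw φ) w).le_opNorm η).trans
      (mul_le_mul_of_nonneg_right h3 (norm_nonneg _))
  set m := Real.sqrt (lam φ w a) with hm
  have h3 : φ w ≤ m := le_m φ w a (h01 w).1
  have h4 : a ≤ m := a_le_m φ w a
  have hm0 : 0 < m := lt_of_lt_of_le ha h4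
  have g1 := (part4 φ L hL0 h01 hL w a ha).2.1
  have hφ0 := (h01 w).1
  have hφ1 := (h01 w).2
  have hη0 : 0 ≤ ‖η‖ := norm_nonneg η
  have hb0 : 0 ≤ |b| := abs_nonneg b
  have t1 : ‖2 * (u : ℂ) * dw φ w + 2 * (φ w : ℂ) * v‖ ≤ 2 * (L * ‖η‖) * L + 2 * (L * ‖η‖) := by
    refine (norm_add_le _ _).trans ?_
    rw [norm_mul, norm_mul, norm_mul, norm_mul, h2, Complex.norm_real, Complex.norm_real,
      Real.norm_eq_abs, Real.norm_eq_abs, abs_of_nonneg hφ0]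
    have s1 : 2 * |u| * ‖dw φ w‖ ≤ 2 * (L * ‖η‖) * L :=
      mul_le_mul (by linarith) (dw_le φ L hL w) (norm_nonneg _) (by positivity)
    have s2 : φ w * ‖v‖ ≤ 1 * (L * ‖η‖) := mul_le_mul hφ1 hv1 (norm_nonneg _) (by norm_num)
    nlinarith
  have t2 : ‖pp φ w a * ((2 * φ w * u + 2 * a * b : ℝ) : ℂ)‖ ≤ 4 * L * (L * ‖η‖ + |b|) := by
    rw [norm_mul, Complex.norm_real, Real.norm_eq_abs]
    have s1 : |2 * φ w * u + 2 * a * b| ≤ 2 * m * (L * ‖η‖ + |b|) := by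
      refine (abs_add_le _ _).trans ?_
      rw [abs_mul (2 * φ w) u, abs_mul (2 * a) b, abs_of_nonneg (by linarith : 0 ≤ 2 * φ w),
        abs_of_nonneg (by linarith : 0 ≤ 2 * a)]
      have s2 : 2 * φ w * |u| ≤ 2 * m * (L * ‖η‖) :=
        mul_le_mul (by linarith) hu1 (abs_nonneg _) (by positivity)
      have s3 : 2 * a * |b| ≤ 2 * m * |b| := mul_le_mul_of_nonneg_right (by linarith) hb0
      linarith
    calc ‖pp φ w a‖ * |2 * φ w * u + 2 * a * b|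
        ≤ ‖pp φ w a‖ * (2 * m * (L * ‖η‖ + |b|)) := mul_le_mul_of_nonneg_left s1 (norm_nonneg _)
      _ = (‖pp φ w a‖ * m) * (2 * (L * ‖η‖ + |b|)) := by ring
      _ ≤ (2 * L) * (2 * (L * ‖η‖ + |b|)) := mul_le_mul_of_nonneg_right g1 (by positivity)
      _ = 4 * L * (L * ‖η‖ + |b|) := by ring
  refine (norm_sub_le _ _).trans ?_
  have g3 : 0 ≤ L * ‖η‖ := by positivity
  have g4 : 0 ≤ L * |b| := by positivity
  have g5 : 0 ≤ L ^ 2 * ‖η‖ := by positivity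
  have g6 : 0 ≤ L ^ 2 * |b| := by positivity
  nlinarith

/-- **RK/R3a** -/
theorem R3a_proof : R3a := by
  intro φ L h hL0 h01 hL hL2
  refine ⟨dw_cd φ h, part2 φ h, ?_, ?_, ?_, ?_⟩
  · intro w w' a a' ha' haa
    exact part3 φ L h hL0 h01 hL w w' a a' ha' haa
  · intro w a ha
    exact part4 φ L hL0 h01 hL w a ha
  · intro w w' a a' ha' haa hl
    exact part5 φ L h hL0 h01 hL hL2 w w' a a' ha' haa hl
  · intro w a ha η b
    exact part6 φ L h hL0 h01 hL hL2 w a ha η b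

end Pool.Agent.N427.RK
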